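import Pool.Agent.Helper8.TNG.Stmts

/-!
Row FRZ of MP_21b3ca_co: one more closed suffix after every promotion.
-/

namespace Pool.Agent.Helper8.TNG

variable {α : Type}

/-- the carry after a word -/
def FRZ_car (lt : α → α → Bool) : α → List α → α
  | c, [] => c
  | c, p :: w => if lt c p then FRZ_car lt p w else FRZ_car lt c w

/-- the output before the carry -/
def FRZ_pre (lt : α → α → Bool) : α → List α → List α
  | _, [] => []
  | c, p :: w => if lt c p then c :: FRZ_pre lt p w else p :: FRZ_pre lt c w

theorem FRZ_pass_append (lt : α → α → Bool) (a v : List α) : ∀ c,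
    pass lt c (a ++ v) = FRZ_pre lt c a ++ pass lt (FRZ_car lt c a) v := by
  induction a with
  | nil => intro c; rfl
  | cons p a ih =>
    intro c
    by_cases h : lt c p = true
    · simp [pass, FRZ_pre, FRZ_car, h, ih]
    · simp [pass, FRZ_pre, FRZ_car, h, ih]

theorem FRZ_length_pre (lt : α → α → Bool) (a : List α) : ∀ c,
    (FRZ_pre lt c a).length = a.length := by
  induction a with
  | nil => intro c; rfl
  | cons p a ih =>
    intro c
    by_cases h : lt c p = true
    · simp [FRZ_pre, h, ih]
    · simp [FRZ_pre, h, ih]

theorem FRZ_length_pass (lt : α → α → Bool) (a : List α) : ∀ c,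
    (pass lt c a).length = a.length + 1 := by
  induction a with
  | nil => intro c; rfl
  | cons p a ih =>
    intro c
    by_cases h : lt c p = true
    · simp [pass, h, ih]
    · simp [pass, h, ih]

theorem FRZ_mem_pre (lt : α → α → Bool) (a : List α) : ∀ c, ∀ q ∈ FRZ_pre lt c a,
    q ∈ c :: a := by
  induction a with
  | nil => intro c q hq; simp [FRZ_pre] at hq
  | cons p a ih =>
    intro c q hq
    by_cases h : lt c p = true
    · simp only [FRZ_pre, h, if_true, List.mem_cons] at hq ⊢
      rcases hq with hq | hq
      · exact Or.inl hq
      · exact Or.inr (List.mem_cons.1 (ih p q hq))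
    · simp only [FRZ_pre, h, if_false, List.mem_cons, Bool.false_eq_true] at hq ⊢
      rcases hq with hq | hq
      · exact Or.inr (Or.inl hq)
      · rcases List.mem_cons.1 (ih c q hq) with h1 | h1
        · exact Or.inl h1
        · exact Or.inr (Or.inr h1)

theorem FRZ_mem_pass (lt : α → α → Bool) (a : List α) : ∀ c, ∀ q ∈ pass lt c a,
    q ∈ c :: a := by
  induction a with
  | nil => intro c q hq; simpa [pass] using hq
  | cons p a ih =>
    intro c q hq
    by_cases h : lt c p = true
    · simp only [pass, h, if_true, List.mem_cons] at hq ⊢
      rcases hq with hq | hq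
      · exact Or.inl hq
      · exact Or.inr (List.mem_cons.1 (ih p q hq))
    · simp only [pass, h, if_false, List.mem_cons, Bool.false_eq_true] at hq ⊢
      rcases hq with hq | hq
      · exact Or.inr (Or.inl hq)
      · rcases List.mem_cons.1 (ih c q hq) with h1 | h1
        · exact Or.inl h1
        · exact Or.inr (Or.inr h1)

theorem FRZ_car_ge (lt : α → α → Bool)
    (htr : ∀ p q r, lt p q = true → lt q r = true → lt p r = true) (a : List α) :
    ∀ c, FRZ_car lt c a = c ∨ lt c (FRZ_car lt c a) = true := by
  induction a with
  | nil => intro c; exact Or.inl rfl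
  | cons p a ih =>
    intro c
    by_cases h : lt c p = true
    · simp only [FRZ_car, h, if_true]
      rcases ih p with h1 | h1
      · rw [h1]; exact Or.inr h
      · exact Or.inr (htr _ _ _ h h1)
    · simp only [FRZ_car, h, if_false, Bool.false_eq_true]
      exact ih c

theorem FRZ_car_not (lt : α → α → Bool) (hir : ∀ p, lt p p = false)
    (htr : ∀ p q r, lt p q = true → lt q r = true → lt p r = true) (a : List α) :
    ∀ c, ∀ q ∈ FRZ_pre lt c a, lt (FRZ_car lt c a) q = false := by
  induction a with
  | nil => intro c q hq; simp [FRZ_pre] at hq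
  | cons p a ih =>
    intro c q hq
    by_cases h : lt c p = true
    · simp only [FRZ_pre, FRZ_car, h, if_true, List.mem_cons] at hq ⊢
      rcases hq with rfl | hq
      · have h2 : lt q (FRZ_car lt p a) = true := by
          rcases FRZ_car_ge lt htr a p with h1 | h1
          · rw [h1]; exact h
          · exact htr _ _ _ h h1
        by_contra h3
        rw [Bool.not_eq_false] at h3
        have h4 := htr _ _ _ h2 h3
        rw [hir] at h4
        exact absurd h4 (by decide)
      · exact ih p q hq
    · simp only [FRZ_pre, FRZ_car, h, if_false, List.mem_cons, Bool.false_eq_true] at hq ⊢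
      rcases hq with rfl | hq
      · rcases FRZ_car_ge lt htr a c with h1 | h1
        · rw [h1]; simpa using h
        · by_contra h3
          rw [Bool.not_eq_false] at h3
          exact h (htr _ _ _ h1 h3)
      · exact ih c q hq

theorem st_FRZ : ST_FRZ := by
  intro α lt hir htr k w hw u' v' huv hlen p hp q hq
  cases w with
  | nil =>
    simp only [promW] at huv
    have h1 := List.append_eq_nil_iff.1 huv.symm
    rw [h1.2] at hp
    simp at hp
  | cons c w0 =>
    simp only [promW] at huv
    have hl := congrArg List.length huv
    rw [FRZ_length_pass, List.length_append] at hl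
    have hv0 : v'.length ≠ 0 := by
      intro h
      rw [List.length_eq_zero_iff.1 h] at hp
      simp at hp
    obtain ⟨a, v, rfl, ha⟩ : ∃ a v, w0 = a ++ v ∧ a.length = u'.length :=
      ⟨w0.take u'.length, w0.drop u'.length, (List.take_append_drop _ _).symm, by
        rw [List.length_take]; omega⟩
    rw [List.length_append] at hl
    have hvl : v.length ≤ k := by omega
    rw [FRZ_pass_append] at huv
    have h1 := List.append_inj huv (by rw [FRZ_length_pre, ha])
    rw [← h1.1] at hq
    rw [← h1.2] at hp
    rcases List.mem_cons.1 (FRZ_mem_pass lt v _ p hp) with h2 | h2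
    · rw [h2]
      exact FRZ_car_not lt hir htr a c q hq
    · exact hw (c :: a) v rfl hvl p h2 q (FRZ_mem_pre lt a c q hq)

end Pool.Agent.Helper8.TNG
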