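import Pool.Agent.Helper8.TNG.Stmts

/-!
Row N2 of MP_21b3ca_co: words with at least two empty gaps.
-/

namespace Pool.Agent.Helper8.TNG

variable {α : Type}

theorem N2_split (F : α → Bool) (w : List α) : 2 ≤ nE F w →
    ∃ u p q v, w = u ++ p :: q :: v ∧ F p = false ∧ F q = false := by
  induction w with
  | nil => intro h; simp [nE] at h
  | cons a w ih =>
    intro h
    cases w with
    | nil =>
      simp only [nE] at h
      split_ifs at h <;> omega
    | cons b w =>
      by_cases hab : F a = false ∧ F b = false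
      · exact ⟨[], a, b, w, rfl, hab.1, hab.2⟩
      · simp only [nE, if_neg hab, zero_add] at h
        obtain ⟨u, p, q, v, h1, h2, h3⟩ := ih h
        exact ⟨a :: u, p, q, v, by rw [h1, List.cons_append], h2, h3⟩

theorem N2_cons (F : α → Bool) (p q : α) (v : List α) (hp : F p = false) (hq : F q = false) :
    nE F (q :: v) = nE F (p :: v) := by
  cases v with
  | nil => simp [nE, hp, hq]
  | cons r v => simp [nE, hp, hq]

theorem N2_glue (F : α → Bool) (p q : α) (v : List α) (hp : F p = false) (hq : F q = false)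
    (u : List α) : nE F (u ++ p :: q :: v) = nE F (u ++ p :: v) + 1 := by
  induction u with
  | nil =>
    simp only [List.nil_append, nE, hp, hq, and_self, if_true]
    rw [N2_cons F p q v hp hq, add_comm]
  | cons a u ih =>
    cases u with
    | nil =>
      simp only [List.nil_append, List.cons_append, nE] at ih ⊢
      rw [ih, add_assoc]
    | cons b u =>
      simp only [List.cons_append, nE] at ih ⊢
      rw [ih, add_assoc]

theorem st_N2 (hWC : ST_WC) (hPB : ST_PB) (hPU : ST_PU) (hGL : ST_GL) (hN1 : ST_N1) :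
    ST_N2 := by
  intro α _ S F hS
  set T := S.filter (fun p => F p = false) with hT
  have h1 : pr S (fun w => 2 ≤ nE F w) ≤
      pr S (fun w => ∃ i ∈ T.offDiag, (fun (i : α × α) (w : List α) =>
        Adj i.1 i.2 w ∧ (fun w => 1 ≤ nE F w) (w.erase i.2)) i w) := by
    refine (hPB α S _ _).2.2.1 ?_
    intro w hw h2
    obtain ⟨hnd, hmem⟩ := ((hWC α S).1 w).1 hw
    obtain ⟨u, p, q, v, rfl, hp, hq⟩ := N2_split F w h2
    have hpq : p ≠ q := by
      rintro rfl
      have := (List.nodup_append.1 hnd).2.1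
      simp at this
    have hqu : q ∉ u := by
      intro h
      have := (List.nodup_append.1 hnd).2.2 q h q (by simp)
      exact this rfl
    have hpS : p ∈ S := (hmem p).1 (by simp)
    have hqS : q ∈ S := (hmem q).1 (by simp)
    refine ⟨(p, q), ?_, ⟨u, v, rfl⟩, ?_⟩
    · rw [Finset.mem_offDiag]
      exact ⟨Finset.mem_filter.2 ⟨hpS, hp⟩, Finset.mem_filter.2 ⟨hqS, hq⟩, hpq⟩
    · have he : (u ++ p :: q :: v).erase q = u ++ p :: v := by
        rw [List.erase_append_right _ hqu, List.erase_cons_tail (by simpa using hpq),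
          List.erase_cons_head]
      show 1 ≤ nE F ((u ++ p :: q :: v).erase q)
      rw [he]
      rw [N2_glue F p q v hp hq u] at h2
      omega
  refine h1.trans (((hPU α (α × α) S T.offDiag _).1).trans ?_)
  have hSc : (0 : ℝ) < (S.card : ℝ) := by
    have : 0 < S.card := by omega
    exact_mod_cast this
  have hSc1 : (0 : ℝ) < (S.card : ℝ) - 1 := by
    have : (2 : ℝ) ≤ (S.card : ℝ) := by exact_mod_cast hS
    linarith
  have hterm : ∀ i ∈ T.offDiag, pr S ((fun (i : α × α) (w : List α) =>
        Adj i.1 i.2 w ∧ (fun w => 1 ≤ nE F w) (w.erase i.2)) i) ≤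
      (1 / (S.card : ℝ)) * ((T.card : ℝ) ^ 2 / ((S.card : ℝ) - 1)) := by
    rintro ⟨p, q⟩ hpq
    rw [Finset.mem_offDiag] at hpq
    obtain ⟨hp, hq, hne⟩ := hpq
    have hpS := (Finset.mem_filter.1 hp).1
    have hqS := (Finset.mem_filter.1 hq).1
    have h2 := hGL α S p q (fun w => 1 ≤ nE F w) hpS hqS hne
    have h3 := hN1 α (S.erase q) F (by rw [Finset.card_erase_of_mem hqS]; omega)
    have h4 : ((S.erase q).filter (fun p => F p = false)).card ≤ T.card :=
      Finset.card_le_card (Finset.filter_subset_filter _ (Finset.erase_subset _ _))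
    have h5 : ((S.erase q).card : ℝ) = (S.card : ℝ) - 1 := by
      rw [Finset.card_erase_of_mem hqS, Nat.cast_sub (by omega)]
      simp
    rw [h5] at h3
    have h6 : (((S.erase q).filter (fun p => F p = false)).card : ℝ) ≤ (T.card : ℝ) := by
      exact_mod_cast h4
    have h7 : (((S.erase q).filter (fun p => F p = false)).card : ℝ) ^ 2 / ((S.card : ℝ) - 1) ≤
        (T.card : ℝ) ^ 2 / ((S.card : ℝ) - 1) := by
      gcongr
    calc pr S (fun w => Adj p q w ∧ (fun w => 1 ≤ nE F w) (w.erase q))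
        = (1 / (S.card : ℝ)) * pr (S.erase q) (fun w => 1 ≤ nE F w) := h2
      _ ≤ (1 / (S.card : ℝ)) * ((T.card : ℝ) ^ 2 / ((S.card : ℝ) - 1)) := by
          refine mul_le_mul_of_nonneg_left (h3.trans h7) (by positivity)
  refine (Finset.sum_le_sum hterm).trans ?_
  rw [Finset.sum_const, nsmul_eq_mul]
  have h8 : (T.offDiag.card : ℝ) ≤ (T.card : ℝ) ^ 2 := by
    have h9 : T.offDiag.card ≤ T.card ^ 2 := by
      rw [Finset.offDiag_card, sq]
      exact Nat.sub_le _ _
    exact_mod_cast h9
  have h10 : (0 : ℝ) ≤ (1 / (S.card : ℝ)) * ((T.card : ℝ) ^ 2 / ((S.card : ℝ) - 1)) := by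
    positivity
  calc (T.offDiag.card : ℝ) * ((1 / (S.card : ℝ)) * ((T.card : ℝ) ^ 2 / ((S.card : ℝ) - 1)))
      ≤ (T.card : ℝ) ^ 2 * ((1 / (S.card : ℝ)) * ((T.card : ℝ) ^ 2 / ((S.card : ℝ) - 1))) :=
        mul_le_mul_of_nonneg_right h8 h10
    _ = (T.card : ℝ) ^ 4 / ((S.card : ℝ) * ((S.card : ℝ) - 1)) := by
        field_simp

end Pool.Agent.Helper8.TNG
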