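import Pool.Agent.Helper8.TNG.Stmts

/-!
Row REG of MP_21b3ca_co: the beginning of the word after as many promotions as there are letters
in `a`.
-/

namespace Pool.Agent.Helper8.TNG

variable {α : Type}

/-- the carry after a word -/
def REG_car (lt : α → α → Bool) : α → List α → α
  | c, [] => c
  | c, p :: w => if lt c p then REG_car lt p w else REG_car lt c w

theorem REG_pass_append (lt : α → α → Bool) (a v : List α) : ∀ c,
    pass lt c (a ++ v) = outs lt [c] a ++ pass lt (REG_car lt c a) v := by
  induction a with
  | nil => intro c; rfl
  | cons p a ih =>
    intro c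
    by_cases h : lt c p = true
    · simp [pass, outs, outc, upd, REG_car, h, ih]
    · simp [pass, outs, outc, upd, REG_car, h, ih]

theorem REG_length_outs (lt : α → α → Bool) (a : List α) : ∀ s,
    (outs lt s a).length = a.length := by
  induction a with
  | nil => intro s; rfl
  | cons p a ih => intro s; simp [outs, ih]

theorem REG_outs_append (lt : α → α → Bool) (v w : List α) : ∀ s,
    ∃ t, outs lt s (v ++ w) = outs lt s v ++ t := by
  induction v with
  | nil => intro s; exact ⟨outs lt s w, rfl⟩
  | cons p v ih =>
    intro s
    obtain ⟨t, ht⟩ := ih (upd lt s p)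
    exact ⟨t, by simp [outs, ht]⟩

theorem REG_outs_cons (lt : α → α → Bool) (v : List α) : ∀ r s,
    outs lt (r :: s) v = outs lt s (outs lt [r] v) := by
  induction v with
  | nil => intro r s; rfl
  | cons p v ih =>
    intro r s
    by_cases h : lt r p = true
    · simp [outs, outc, upd, h, ih p (upd lt s r)]
    · simp [outs, outc, upd, h, ih r (upd lt s p)]

theorem REG_run_cons (lt : α → α → Bool) (a : List α) : ∀ r s,
    run lt (r :: s) a = REG_car lt r a :: run lt s (outs lt [r] a) := by
  induction a with
  | nil => intro r s; rfl
  | cons p a ih =>
    intro r s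
    by_cases h : lt r p = true
    · have h1 := ih p (ins lt s r)
      simp only [run] at h1
      simp [run, outs, outc, upd, ins, REG_car, h, h1]
    · have h1 := ih r (ins lt s p)
      simp only [run] at h1
      simp [run, outs, outc, upd, ins, REG_car, h, h1]

theorem REG_state_cons (lt : α → α → Bool) (c : α) (a : List α) :
    state lt (c :: a) = REG_car lt c a :: state lt (outs lt [c] a) :=
  REG_run_cons lt a c []

theorem st_REG : ST_REG := by
  intro α lt a
  induction hn : a.length generalizing a with
  | zero =>
    intro v
    rw [List.length_eq_zero_iff.1 hn]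
    refine ⟨[], ?_⟩
    simp only [Function.iterate_zero, id_eq, List.nil_append, List.append_nil]
    have : ∀ v : List α, outs lt [] v = v := by
      intro v
      induction v with
      | nil => rfl
      | cons p v ih => simp [outs, outc, upd, ih]
    exact (this v).symm
  | succ n ih =>
    intro v
    cases a with
    | nil => simp at hn
    | cons c a =>
      have hn' : a.length = n := by simpa using hn
      obtain ⟨tl, htl⟩ := ih (outs lt [c] a) (by rw [REG_length_outs, hn'])
        (outs lt [REG_car lt c a] v ++ [REG_car lt (REG_car lt c a) v])
      obtain ⟨t, ht⟩ := REG_outs_append lt (outs lt [REG_car lt c a] v)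
        [REG_car lt (REG_car lt c a) v] (state lt (outs lt [c] a))
      refine ⟨t ++ tl, ?_⟩
      have h1 : promW lt (c :: a ++ v) = outs lt [c] a ++
          (outs lt [REG_car lt c a] v ++ [REG_car lt (REG_car lt c a) v]) := by
        have h2 := REG_pass_append lt v [] (REG_car lt c a)
        rw [List.append_nil] at h2
        rw [List.cons_append, promW, REG_pass_append, h2]
        rfl
      rw [Function.iterate_succ_apply, h1, htl, ht, REG_state_cons, REG_outs_cons lt v (REG_car lt c a) (state lt (outs lt [c] a)),
        List.append_assoc]

end Pool.Agent.Helper8.TNG
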